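import Pool.Agent.Lib.MP_4318ff_ag.All.N
import Pool.Agent.Lib.MP_4318ff_ag.T3.Main

/-!
# MP_4318ff_ag: three lines (the Hirzebruch-Kummer covering is the projective plane) (helper11)
-/

set_option autoImplicit false

namespace Pool.Agent.Lib.MP_4318ff_ag

/-- For three lines the Hirzebruch-Kummer covering (the plane) is etale rigid. -/
theorem etaleRigid_three (k : Type) [Field k] [CharZero k] [IsAlgClosed k] (n : ℕ) (hn : 0 < n) (C : Config k 3) :
    EtaleRigid C n := by
  intro K _ _ _ _ hK
  exact all_nH1F k 3 C K (t3_H1 hn hK)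

end Pool.Agent.Lib.MP_4318ff_ag
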