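import Pool.Agent.Lib.MP_4318ff_ag.All.Main
import Pool.Agent.Lib.MP_4318ff_ag.N.NExt
import Pool.Agent.Lib.MP_4318ff_ag.X.Apx
import Pool.Agent.Lib.MP_4318ff_ag.X.Cmp
import Pool.Agent.Lib.MP_4318ff_ag.X.Dvr
import Pool.Agent.Lib.MP_4318ff_ag.X.Fin
import Pool.Agent.Lib.MP_4318ff_ag.X.For
import Pool.Agent.Lib.MP_4318ff_ag.X.Glu
import Pool.Agent.Lib.MP_4318ff_ag.X.Hen
import Pool.Agent.Lib.MP_4318ff_ag.X.Ho
import Pool.Agent.Lib.MP_4318ff_ag.X.Kum
import Pool.Agent.Lib.MP_4318ff_ag.X.Lam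
import Pool.Agent.Lib.MP_4318ff_ag.X.Lft
import Pool.Agent.Lib.MP_4318ff_ag.X.Lif
import Pool.Agent.Lib.MP_4318ff_ag.X.LoF
import Pool.Agent.Lib.MP_4318ff_ag.X.Non
import Pool.Agent.Lib.MP_4318ff_ag.X.Prj
import Pool.Agent.Lib.MP_4318ff_ag.X.Sol
import Pool.Agent.Lib.MP_4318ff_ag.X.The

/-!
# MP_4318ff_ag: assembly of folder X: configurations with the data `XData` are not etale rigid for `n ≥ 4`
-/

set_option autoImplicit false

namespace Pool.Agent.Lib.MP_4318ff_ag

theorem x_ext : ExtXStmt := tNExt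
theorem x_lft : LftStmt := tLft tHen
theorem x_sol : SolXStmt := tSol tEv tHen
theorem x_the : TheStmt := tThe tEv tCoord tHen x_ext x_lft
theorem x_lof : LoFStmt := tLoF tEv all_curve all_exc
theorem x_lif : LifStmt := tLif tEv tUnif all_curve all_exc tKumDec x_lof
theorem x_glu : GluStmt := tGlu all_hartUV all_overlap tUnif all_curve all_exc
theorem x_for : ForStmt := tFor x_sol x_the x_lif tApx x_glu tCmp
theorem x_ho : HoStmt := tHo tEv tCoord all_curve tLoc all_hartA tOrd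
theorem x_lam : LamStmt := tLam tEv tUnif all_curve
theorem x_dvr : DvrStmt := tDvr tEv
theorem x_non : NonStmt := tNon tEv all_curve all_chartEx tCmp x_ho tPrj x_lam x_dvr

/-- Configurations with the data `XData` are not etale rigid for `n ≥ 4`. -/
theorem x_fin : XFinStmt := tFin tEv x_for x_non tKum

end Pool.Agent.Lib.MP_4318ff_ag
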