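import Pool.Agent.Lib.MP_4318ff_ag.All.N
import Pool.Agent.Lib.MP_4318ff_ag.All.X
import Pool.Agent.Lib.MP_4318ff_ag.All.T3
import Pool.Agent.Lib.MP_4318ff_ag.X.Cl
import Pool.Agent.Lib.MP_4318ff_ag.Q.Fin0
import Pool.Agent.Lib.MP_4318ff_ag.Y.MTM

/-!
# MP_4318ff_ag: the full answer of Q1
-/

set_option autoImplicit false

namespace Pool.Agent.Lib.MP_4318ff_ag

/-- A configuration has at least three lines. -/
theorem Config.three_le {k : Type} [Field k] {r : ℕ} (C : Config k r) : 3 ≤ r := by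
  have h : Module.finrank k (Submodule.span k (Set.range C.ℓ)) ≤ r := by
    have := finrank_range_le_card (R := k) C.ℓ
    rwa [Fintype.card_fin] at this
  rw [C.span, finrank_top, Module.finrank_fin_fun] at h
  exact h

/-- Rigid configurations with at least six lines: etale rigid for all `n ≥ r - 1` (for `r = 6`: for all `n ≥ 4`). -/
theorem full_pos {r : ℕ} (C : Config ℂ r) (hC : C.Rigid) (hr : 6 ≤ r) (n : ℕ) (hn : 4 ≤ n) (h : r ≤ n + 1 ∨ r = 6) :
    EtaleRigid C n := by
  intro K _ _ _ _ hK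
  have hA := Rigid_arc C hC
  have hL := tArcLin ℂ r C hA
  obtain ⟨P, hP, -⟩ := all_twoL ℂ r C hL hr ⟨0, by omega⟩
  exact all_nFinal ℂ r n C (etFFor_of_lin ℂ s1_complex r n C hL hr hn h) hA ⟨P, hP⟩ (by omega) (by omega) K hK

/-- Rigid configurations with four or five lines: not etale rigid for `n ≥ 4`. -/
theorem full_neg {r : ℕ} (C : Config ℂ r) (hC : C.Rigid) (hr : r = 4 ∨ r = 5) (n : ℕ) (hn : 4 ≤ n) :
    ¬ EtaleRigid C n :=
  x_fin ℂ r n C (tCl ℂ r C (Rigid_lin C hC) hr) hn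

/-- The answer for every `n ≥ max(4, r - 1)` (for `r = 6`: for every `n ≥ 4`). -/
theorem full_n {r : ℕ} (C : Config ℂ r) (hC : C.Rigid) (n : ℕ) (hn : 4 ≤ n) (h : r ≤ n + 1 ∨ r = 6) :
    EtaleRigid C n ↔ r = 3 ∨ 6 ≤ r := by
  constructor
  · intro hE
    by_contra h1
    have h3 := C.three_le
    exact full_neg C hC (by omega) n hn hE
  · rintro (rfl | hr)
    · exact etaleRigid_three ℂ n (by omega) C
    · exact full_pos C hC hr n hn h

/-- The answer of Q1: a rigid configuration of `r` lines is etale rigid for all large `n` if and only if `r = 3` or `r ≥ 6`. -/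
theorem full_large {r : ℕ} (C : Config ℂ r) (hC : C.Rigid) :
    (∃ N, ∀ n, N ≤ n → EtaleRigid C n) ↔ r = 3 ∨ 6 ≤ r := by
  constructor
  · rintro ⟨N, hN⟩
    exact (full_n C hC (max N (max 4 r)) (by omega) (Or.inl (by omega))).1 (hN _ (by omega))
  · intro h
    exact ⟨max 4 r, fun n hn => (full_n C hC n (by omega) (Or.inl (by omega))).2 h⟩

end Pool.Agent.Lib.MP_4318ff_ag
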