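import Pool.Agent.Lib.MP_4318ff_ag.All.Main
import Pool.Agent.Lib.MP_4318ff_ag.L.ArcLin
import Pool.Agent.Lib.MP_4318ff_ag.L.LinInf
import Pool.Agent.Lib.MP_4318ff_ag.L.FouL
import Pool.Agent.Lib.MP_4318ff_ag.L.TwoL
import Pool.Agent.Lib.MP_4318ff_ag.L.SpnL
import Pool.Agent.Lib.MP_4318ff_ag.L.FmkL
import Pool.Agent.Lib.MP_4318ff_ag.L.LA3L
import Pool.Agent.Lib.MP_4318ff_ag.L.CorB
import Pool.Agent.Lib.MP_4318ff_ag.L.ResK
import Pool.Agent.Lib.MP_4318ff_ag.L.ResE
import Pool.Agent.Lib.MP_4318ff_ag.L.Inc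
import Pool.Agent.Lib.MP_4318ff_ag.L.ConstK
import Pool.Agent.Lib.MP_4318ff_ag.L.Greg
import Pool.Agent.Lib.MP_4318ff_ag.L.InvZ
import Pool.Agent.Lib.MP_4318ff_ag.L.Gzero
import Pool.Agent.Lib.MP_4318ff_ag.L.VecL
import Pool.Agent.Lib.MP_4318ff_ag.L.CoreL
import Pool.Agent.Lib.MP_4318ff_ag.L.MTL
import Pool.Agent.Lib.MP_4318ff_ag.W.EtF

/-!
# MP_4318ff_ag: assembly of part L and of `EtFFor` (given part S in the form `S1Stmt k`)
-/

set_option autoImplicit false

namespace Pool.Agent.Lib.MP_4318ff_ag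

theorem all_twoL : TwoLStmt := tTwoL la_pnt la_bas (tFouL la_pnt la_bas) tEpl
theorem all_spnL : SpnLStmt := tSpnL la_pnt la_bas all_twoL
theorem all_fmkL : FmkLStmt := tFmkL la_pnt la_bas all_twoL la_avd
theorem all_la3L : LA3LStmt := tLA3L tDua tExl all_fmkL
theorem all_resK : ResKStmt := tResK la_eig all_spnL all_fmkL (tCorB tDua)
theorem all_resE : ResEStmt := tResE all_resK
theorem all_inc : IncStmt := tInc tExl
theorem all_constK : ConstKStmt := tConstK tUnif all_curve all_const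
theorem all_greg : GregStmt := tGreg tEv tUnif all_curve all_chartEx tTau tGlob all_van la_bas all_resE
theorem all_invZ : InvZStmt := tInvZ tEv tUnif all_curve all_chartEx all_desc all_const la_bas
theorem all_gzero : GzeroStmt := tGzero tAvg tRegMod all_greg all_constK all_invZ
theorem all_vecL : VecLStmt := tVecL tEv all_gzero all_inc all_la3L tDerV all_pen
theorem all_coreL : CoreLStmt := tCoreL tMFin all_vecL all_hartK all_derUniq tRegEq tRegMod all_regCurve all_regExc all_inv
  tAvg all_twoL all_spnL la_bas all_exc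
theorem all_mtL : MTLStmt := tMTL tMFin tAvg tNPnormal all_disj all_coreL tRegMod all_twoL

/-- The main theorem for cocycles with average zero, linearly rigid configurations, given part S. -/
theorem mtlFor_of_S1 (k : Type) [Field k] [CharZero k] [IsAlgClosed k] (h : S1Stmt k) (r n : ℕ) (C : Config k r)
    (hC : C.LinRigid) (hr : 6 ≤ r) (hn : r ≤ n + 1) : MTLFor C n := by
  intro K _ _ _ _ _ _ hroots D hD hP ha
  exact all_mtL k h r n C K hC hr hn hroots D hD hP ha

/-- The additive theorem for etale coverings modulo `F`-rational derivations. -/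
theorem etFFor_of_S1 (k : Type) [Field k] [CharZero k] [IsAlgClosed k] (h : S1Stmt k) (r n : ℕ) (C : Config k r)
    (hC : C.LinRigid) (hr : 6 ≤ r) (hn : r ≤ n + 1) : EtFFor C n :=
  tEtF tExtDer all_overlap tEtStep tAvg tRegMod k r n C (by omega) (mtlFor_of_S1 k h r n C hC hr hn)

end Pool.Agent.Lib.MP_4318ff_ag
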