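import Pool.Agent.Lib.MP_4318ff_ag.LA.All
import Pool.Agent.Lib.MP_4318ff_ag.A.AlgCl
import Pool.Agent.Lib.MP_4318ff_ag.A.Avg
import Pool.Agent.Lib.MP_4318ff_ag.A.ChartEx
import Pool.Agent.Lib.MP_4318ff_ag.A.Coord
import Pool.Agent.Lib.MP_4318ff_ag.A.Core
import Pool.Agent.Lib.MP_4318ff_ag.A.Curve
import Pool.Agent.Lib.MP_4318ff_ag.A.Curve1
import Pool.Agent.Lib.MP_4318ff_ag.A.DerUniq
import Pool.Agent.Lib.MP_4318ff_ag.A.DerV
import Pool.Agent.Lib.MP_4318ff_ag.A.Desc
import Pool.Agent.Lib.MP_4318ff_ag.A.Disj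
import Pool.Agent.Lib.MP_4318ff_ag.A.Ev
import Pool.Agent.Lib.MP_4318ff_ag.A.Exc
import Pool.Agent.Lib.MP_4318ff_ag.A.Fix
import Pool.Agent.Lib.MP_4318ff_ag.A.Fix1
import Pool.Agent.Lib.MP_4318ff_ag.A.G1
import Pool.Agent.Lib.MP_4318ff_ag.A.G2
import Pool.Agent.Lib.MP_4318ff_ag.A.Glob
import Pool.Agent.Lib.MP_4318ff_ag.A.Good
import Pool.Agent.Lib.MP_4318ff_ag.A.Hart
import Pool.Agent.Lib.MP_4318ff_ag.A.Hart1
import Pool.Agent.Lib.MP_4318ff_ag.A.HartA
import Pool.Agent.Lib.MP_4318ff_ag.A.HartK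
import Pool.Agent.Lib.MP_4318ff_ag.A.Inv
import Pool.Agent.Lib.MP_4318ff_ag.A.KumDec
import Pool.Agent.Lib.MP_4318ff_ag.A.KumReg
import Pool.Agent.Lib.MP_4318ff_ag.A.Loc
import Pool.Agent.Lib.MP_4318ff_ag.A.LocCurve
import Pool.Agent.Lib.MP_4318ff_ag.A.LocExc
import Pool.Agent.Lib.MP_4318ff_ag.A.LocExc1
import Pool.Agent.Lib.MP_4318ff_ag.A.LocReg
import Pool.Agent.Lib.MP_4318ff_ag.A.MFin
import Pool.Agent.Lib.MP_4318ff_ag.A.NPnormal
import Pool.Agent.Lib.MP_4318ff_ag.A.Norm
import Pool.Agent.Lib.MP_4318ff_ag.A.Ord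
import Pool.Agent.Lib.MP_4318ff_ag.A.Pen
import Pool.Agent.Lib.MP_4318ff_ag.A.Pow
import Pool.Agent.Lib.MP_4318ff_ag.A.RegCurve
import Pool.Agent.Lib.MP_4318ff_ag.A.RegEq
import Pool.Agent.Lib.MP_4318ff_ag.A.RegExc
import Pool.Agent.Lib.MP_4318ff_ag.A.RegLin
import Pool.Agent.Lib.MP_4318ff_ag.A.RegMod
import Pool.Agent.Lib.MP_4318ff_ag.A.Tau
import Pool.Agent.Lib.MP_4318ff_ag.A.Unif
import Pool.Agent.Lib.MP_4318ff_ag.A.Van
import Pool.Agent.Lib.MP_4318ff_ag.A.Vec
import Pool.Agent.Lib.MP_4318ff_ag.B.CaseC2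
import Pool.Agent.Lib.MP_4318ff_ag.B.ChartExA
import Pool.Agent.Lib.MP_4318ff_ag.B.Et2
import Pool.Agent.Lib.MP_4318ff_ag.B.GlobP
import Pool.Agent.Lib.MP_4318ff_ag.B.HartUV
import Pool.Agent.Lib.MP_4318ff_ag.B.LogDiv
import Pool.Agent.Lib.MP_4318ff_ag.B.MT2
import Pool.Agent.Lib.MP_4318ff_ag.B.Overlap
import Pool.Agent.Lib.MP_4318ff_ag.B.PresReg
import Pool.Agent.Lib.MP_4318ff_ag.B.S2F
import Pool.Agent.Lib.MP_4318ff_ag.B.S2F1
import Pool.Agent.Lib.MP_4318ff_ag.B.Side
import Pool.Agent.Lib.MP_4318ff_ag.B.Side1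
import Pool.Agent.Lib.MP_4318ff_ag.B.Side2
import Pool.Agent.Lib.MP_4318ff_ag.B.SideP
import Pool.Agent.Lib.MP_4318ff_ag.B.SideT
import Pool.Agent.Lib.MP_4318ff_ag.B.Tay
import Pool.Agent.Lib.MP_4318ff_ag.C.CaseF
import Pool.Agent.Lib.MP_4318ff_ag.C.Const
import Pool.Agent.Lib.MP_4318ff_ag.C.GlobC
import Pool.Agent.Lib.MP_4318ff_ag.C.PenPoly
import Pool.Agent.Lib.MP_4318ff_ag.C.Polar
import Pool.Agent.Lib.MP_4318ff_ag.C.Split
import Pool.Agent.Lib.MP_4318ff_ag.E.EtStep
import Pool.Agent.Lib.MP_4318ff_ag.E.ExtDer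

/-!
# MP_4318ff_ag: assembly of part A (given part S in the form `S1Stmt k`)
-/

set_option autoImplicit false

namespace Pool.Agent.Lib.MP_4318ff_ag

theorem all_curve : CurveStmt := tCurve tEv tCoord tLoc
theorem all_exc : ExcStmt := tExc tEv tCoord tLoc
theorem all_hart : HartStmt := tHart tEv tCoord tLoc all_exc tOrd
theorem all_hartA : HartAStmt := tHartA tCoord tLoc
theorem all_hartK : HartKStmt := tHartK tUnif all_curve all_exc all_hart
theorem all_norm : NormStmt := tNorm tEv tCoord tLoc tUnif all_curve all_exc tOrd all_hartA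
theorem all_locCurve : LocCurveStmt := tLocCurve tEv tUnif all_curve tPow tTau
theorem all_locExc : LocExcStmt := tLocExc tEv all_exc tTau
theorem all_chartEx : ChartExStmt := tChartEx tEv all_curve all_exc
theorem all_van : VanStmt := tVan tEv all_chartEx all_curve all_exc tPow all_norm all_locCurve all_locExc tGlob
theorem all_pen : PenStmt := tPen tEv
theorem all_vec : VecStmt := tVec tEv all_van la_5 tDerV all_pen
theorem all_derUniq : DerUniqStmt := tDerUniq tEv tCoord
theorem all_good : GoodStmt := tGood tEv tKumDec (tKumReg tUnif)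
theorem all_regCurve : RegCurveStmt := tRegCurve tEv tCoord all_curve tLocReg all_good
theorem all_regExc : RegExcStmt := tRegExc tEv tCoord all_exc tLocReg all_good
theorem all_fix : FixStmt := tFix tEv tCoord tUnif all_exc
theorem all_inv : InvStmt := tInv all_exc tPow tTau all_fix
theorem all_core : CoreStmt := tCore tMFin all_vec all_hartK all_derUniq tRegEq tRegMod all_regCurve all_regExc all_inv
  tAvg la_two la_spn la_bas all_exc
theorem all_algCl : AlgClStmt := tAlgCl tEv tCoord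
theorem all_disj : DisjStmt := tDisj all_algCl
theorem all_desc : DescStmt := tDesc tUnif all_curve all_exc tTau
theorem all_const : ConstStmt := tConst tEv tCoord all_curve tLoc all_hartA tOrd
theorem all_penPoly : PenPolyStmt := tPenPoly tEv tCoord tLoc tUnif all_curve
theorem all_polar : PolarStmt := tPolar tLoc
theorem all_split : SplitStmt := tSplit tEv tCoord all_curve all_penPoly tDerV
theorem all_globC : GlobCStmt := tGlobC tEv tUnif all_curve all_chartEx all_const all_polar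
theorem all_caseF : CaseFStmt := tCaseF tEv tMFin all_split all_polar all_globC la_7 tDerV all_pen
theorem all_hartUV : HartUVStmt := tHartUV tEv tUnif all_hart tMFin all_curve all_exc
theorem all_sideT : SideTStmt := tSideT tLoc tTay
theorem all_sideP : SidePStmt := tSideP tLoc tTay
theorem all_side : SideStmt := tSide tEv tCoord tLoc all_curve all_exc tMFin all_hartUV all_sideT all_sideP
theorem all_globP : GlobPStmt := tGlobP tEv tCoord tLoc tUnif all_curve all_exc
theorem all_logDiv : LogDivStmt := tLogDiv tEv tUnif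
theorem all_chartExA : ChartExAStmt := tChartExA all_chartEx
theorem all_s2F : S2FStmt := tS2F tEv all_curve all_exc tDerV all_chartExA all_side all_globP all_logDiv
theorem all_caseC2 : CaseC2Stmt := tCaseC2 all_desc all_s2F all_caseF
theorem all_presReg : PresRegStmt := tPresReg tEv tUnif all_curve all_exc
theorem all_overlap : OverlapStmt := tOverlap tMFin
theorem all_mt2 : MT2Stmt := tMT2 tMFin tAvg tNPnormal all_disj all_presReg all_core all_caseC2 tRegMod la_two
theorem all_et2 : Et2Stmt := tEt2 tExtDer all_overlap tEtStep all_mt2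

/-- The main theorem over `k`, given part S. -/
theorem main_of_S1 (k : Type) [Field k] [CharZero k] [IsAlgClosed k] (h : S1Stmt k) : MainFor k := all_et2 k h

end Pool.Agent.Lib.MP_4318ff_ag
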