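import Pool.Agent.Lib.MP_4318ff_ag.All.Main
import Pool.Agent.Lib.MP_4318ff_ag.W.EtF
import Pool.Agent.Lib.MP_4318ff_ag.L.ArcLin
import Pool.Agent.Lib.MP_4318ff_ag.L.ConstK
import Pool.Agent.Lib.MP_4318ff_ag.L.CorB
import Pool.Agent.Lib.MP_4318ff_ag.L.CoreL
import Pool.Agent.Lib.MP_4318ff_ag.L.FmkL
import Pool.Agent.Lib.MP_4318ff_ag.L.FouL
import Pool.Agent.Lib.MP_4318ff_ag.L.Greg
import Pool.Agent.Lib.MP_4318ff_ag.L.Gzero
import Pool.Agent.Lib.MP_4318ff_ag.L.Inc
import Pool.Agent.Lib.MP_4318ff_ag.L.InvZ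
import Pool.Agent.Lib.MP_4318ff_ag.L.LA3L
import Pool.Agent.Lib.MP_4318ff_ag.L.MTL
import Pool.Agent.Lib.MP_4318ff_ag.L.ResE
import Pool.Agent.Lib.MP_4318ff_ag.L.ResK
import Pool.Agent.Lib.MP_4318ff_ag.L.SpnL
import Pool.Agent.Lib.MP_4318ff_ag.L.TwoL
import Pool.Agent.Lib.MP_4318ff_ag.L.VecL

/-!
# MP_4318ff_ag: assembly for linearly rigid configurations (given part S in the form `S1Stmt k`)
-/

set_option autoImplicit false

namespace Pool.Agent.Lib.MP_4318ff_ag

theorem allL_fou : FouLStmt := tFouL tPnt la_bas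
theorem allL_two : TwoLStmt := tTwoL tPnt la_bas allL_fou tEpl
theorem allL_spn : SpnLStmt := tSpnL tPnt la_bas allL_two
theorem allL_fmk : FmkLStmt := tFmkL tPnt la_bas allL_two la_avd
theorem allL_la3 : LA3LStmt := tLA3L tDua tExl allL_fmk
theorem allL_corB : CorBStmt := tCorB tDua
theorem allL_resK : ResKStmt := tResK la_eig allL_spn allL_fmk allL_corB
theorem allL_resE : ResEStmt := tResE allL_resK
theorem allL_inc : IncStmt := tInc tExl
theorem allL_constK : ConstKStmt := tConstK tUnif all_curve all_const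
theorem allL_greg : GregStmt := tGreg tEv tUnif all_curve all_chartEx tTau tGlob all_van la_bas allL_resE
theorem allL_invZ : InvZStmt := tInvZ tEv tUnif all_curve all_chartEx all_desc all_const la_bas
theorem allL_gzero : GzeroStmt := tGzero tAvg tRegMod allL_greg allL_constK allL_invZ
theorem allL_vec : VecLStmt := tVecL tEv allL_gzero allL_inc allL_la3 tDerV all_pen
theorem allL_core : CoreLStmt := tCoreL tMFin allL_vec all_hartK all_derUniq tRegEq tRegMod all_regCurve all_regExc all_inv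
  tAvg allL_two allL_spn la_bas all_exc
theorem allL_mtl : MTLStmt := tMTL tMFin tAvg tNPnormal all_disj allL_core tRegMod allL_two
theorem allL_etF : EtFStmt := tEtF tExtDer all_overlap tEtStep tAvg tRegMod

/-- The additive theorem for linearly rigid configurations, given part S. -/
theorem etF_of_S1 (k : Type) [Field k] [CharZero k] [IsAlgClosed k] (h : S1Stmt k) (r n : ℕ) (C : Config k r)
    (hC : C.LinRigid) (hr : 6 ≤ r) (hn : r ≤ n + 1) : EtFFor C n :=
  allL_etF k r n C (by omega) fun K _ _ _ _ _ _ hR => allL_mtl k h r n C K hC hr hn hR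

end Pool.Agent.Lib.MP_4318ff_ag
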