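import Pool.Agent.Lib.MP_4318ff_ag.All.L
import Pool.Agent.Lib.MP_4318ff_ag.N.NGrp
import Pool.Agent.Lib.MP_4318ff_ag.N.NExt
import Pool.Agent.Lib.MP_4318ff_ag.N.NExp
import Pool.Agent.Lib.MP_4318ff_ag.N.NLead
import Pool.Agent.Lib.MP_4318ff_ag.N.NLim
import Pool.Agent.Lib.MP_4318ff_ag.N.NRoot
import Pool.Agent.Lib.MP_4318ff_ag.N.NUnit
import Pool.Agent.Lib.MP_4318ff_ag.N.NRat
import Pool.Agent.Lib.MP_4318ff_ag.N.NLoc
import Pool.Agent.Lib.MP_4318ff_ag.N.NStep
import Pool.Agent.Lib.MP_4318ff_ag.N.NEqui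
import Pool.Agent.Lib.MP_4318ff_ag.N.NRes
import Pool.Agent.Lib.MP_4318ff_ag.N.NOLoc
import Pool.Agent.Lib.MP_4318ff_ag.N.NForm
import Pool.Agent.Lib.MP_4318ff_ag.N.NLogO
import Pool.Agent.Lib.MP_4318ff_ag.N.NToLog
import Pool.Agent.Lib.MP_4318ff_ag.N.NH1O
import Pool.Agent.Lib.MP_4318ff_ag.N.NTw
import Pool.Agent.Lib.MP_4318ff_ag.N.NH
import Pool.Agent.Lib.MP_4318ff_ag.N.NH0
import Pool.Agent.Lib.MP_4318ff_ag.N.NSpan
import Pool.Agent.Lib.MP_4318ff_ag.N.NArc
import Pool.Agent.Lib.MP_4318ff_ag.N.NEta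
import Pool.Agent.Lib.MP_4318ff_ag.N.NThA
import Pool.Agent.Lib.MP_4318ff_ag.N.NThB
import Pool.Agent.Lib.MP_4318ff_ag.N.NLogExt
import Pool.Agent.Lib.MP_4318ff_ag.N.NLogGrp
import Pool.Agent.Lib.MP_4318ff_ag.N.NFact
import Pool.Agent.Lib.MP_4318ff_ag.N.NUniq
import Pool.Agent.Lib.MP_4318ff_ag.N.NFinal
import Pool.Agent.Lib.MP_4318ff_ag.N.NH1F
import Pool.Agent.Lib.MP_4318ff_ag.R.Small

/-!
# MP_4318ff_ag: assembly of part N: formal deformations of etale coverings (given part S in the form `S1Stmt k`)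
-/

set_option autoImplicit false

namespace Pool.Agent.Lib.MP_4318ff_ag

theorem all_nExp : NExpStmt := tNExp tNGrp tNExt
theorem all_nLead : NLeadStmt := tNLead tNGrp
theorem all_nLim : NLimStmt := tNLim tNGrp tNExt
theorem all_nRat : NRatStmt := tNRat tNGrp all_nExp all_nLead
theorem all_nLoc : NLocStmt := tNLoc tEv tMFin all_overlap tNGrp tNUnit
theorem all_nStep : NStepStmt := tNStep tNGrp all_nExp all_nLead all_nRat all_nLoc
theorem all_nEqui : NEquiStmt := tNEqui tNGrp all_nLead all_nLim all_nLoc all_nStep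
theorem all_nRes : NResStmt := tNRes tNGrp tNExt
theorem all_nOLoc : NOLocStmt := tNOLoc tEv tCoord all_curve all_exc
theorem all_nForm : NFormStmt := tNForm tEv tUnif all_curve all_exc
theorem all_nLogO : NLogOStmt := tNLogO tEv tUnif tNGrp tNRoot tNUnit all_nOLoc all_nForm all_curve all_exc
theorem all_nToLog : NToLogStmt := tNToLog tNGrp all_nRes all_nLogO all_hartUV
theorem all_nH1O : NH1OStmt := tNH1O tEv tCoord all_curve all_hart all_chartExA all_side all_globP all_penPoly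
theorem all_nTw : NTwStmt := tNTw tNGrp all_nH1O
theorem all_nH : NHStmt := tNH tEv all_nTw
theorem all_nH0 : NH0Stmt := tNH0 tEv tCoord tLoc tUnif all_curve all_exc all_chartEx tOrd all_hartA
theorem all_nArc : NArcStmt := tNArc tEv all_nH all_nH0 tNSpan
theorem all_nEta : NEtaStmt := tNEta tNUnit all_nArc
theorem all_nThA : NThAStmt := tNThA tEv tNExt
theorem all_nThB : NThBStmt := tNThB tEv la_pnt la_bas tNGrp tNUnit all_nThA
theorem all_nLogExt : NLogExtStmt := tNLogExt tEv tUnif all_curve all_exc la_bas all_hartK all_good tExtDer tEtStep all_nOLoc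
theorem all_nLogGrp : NLogGrpStmt := tNLogGrp tEv tNGrp all_nExp all_nLead tNUnit
theorem all_nFact : NFactStmt := tNFact tNGrp all_nExp all_nLead all_nLim all_nLogGrp all_nLogExt
theorem all_nUniq : NUniqStmt := tNUniq tNGrp all_nLead
theorem all_nFinal : NFinalStmt := tNFinal tNGrp all_nEqui all_nLoc all_nToLog all_nEta all_nThB all_nFact all_nUniq
theorem all_nH1F : NH1FStmt := tNH1F tNGrp all_nExp all_nLead all_nLim all_nLoc

/-- Rigid configurations (over `k[[X]]`) with at least six lines: the Hirzebruch-Kummer covering is etale rigid. Given part S. -/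
theorem etaleRigid_of_S1 (k : Type) [Field k] [CharZero k] [IsAlgClosed k] (h : S1Stmt k) (r n : ℕ) (C : Config k r)
    (hC : C.ArcRigid) (hr : 6 ≤ r) (hn : r ≤ n + 1) : EtaleRigid C n := by
  intro K _ _ _ _ hK
  have hL := tArcLin k r C hC
  obtain ⟨P, hP, -⟩ := all_twoL k r C hL hr ⟨0, by omega⟩
  exact all_nFinal k r n C (etFFor_of_S1 k h r n C hL hr hn) hC ⟨P, hP⟩ (by omega) (by omega) K hK

/-- Rigid configurations over the complex numbers with at least six lines: the Hirzebruch-Kummer covering is etale rigid. Given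
part S. -/
theorem etaleRigid_of_rigid (h : S1Stmt ℂ) (r n : ℕ) (C : Config ℂ r) (hC : C.Rigid) (hr : 6 ≤ r) (hn : r ≤ n + 1) :
    EtaleRigid C n :=
  etaleRigid_of_S1 ℂ h r n C (Rigid_arc C hC) hr hn

end Pool.Agent.Lib.MP_4318ff_ag
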